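import Mathlib
set_option autoImplicit false

namespace Pool.Agent.U375.UEA

abbrev F3 := ZMod 3
abbrev M2 := Matrix (Fin 2) (Fin 2) (ZMod 3)

theorem pow26 : ∀ M : M2, M ^ 26 = M ^ 2 := by
  decide +kernel

/-- value at the four matrix units -/
def B4 : Fin (2*2) → M2 :=
  ![!![1,0;0,0], !![0,1;0,0], !![0,0;1,0], !![0,0;0,1]]

/-- The standard polynomial as alternating map. -/
noncomputable def st (n : ℕ) : M2 [⋀^Fin n]→ₗ[F3] M2 :=
  MultilinearMap.alternatization (MultilinearMap.mkPiAlgebraFin F3 n M2)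

lemma st_apply (n : ℕ) (v : Fin n → M2) : st n v = ∑ σ : Equiv.Perm (Fin n),
            ((Equiv.Perm.sign σ : ℤˣ) : ℤ) • (List.ofFn fun i => v (σ i)).prod := by
  unfold st
  rw [MultilinearMap.alternatization_apply]
  refine Finset.sum_congr rfl fun σ _ => ?_
  rw [Units.smul_def]
  rfl

theorem key : (∑ σ : Equiv.Perm (Fin (2 * 2)),
            ((Equiv.Perm.sign σ : ℤˣ) : ℤ) • (List.ofFn fun i => B4 (σ i)).prod) = 0 := by
  decide +kernel

/-- basis indexed by `Fin 4` -/
noncomputable def bas : Module.Basis (Fin (2 * 2)) F3 M2 :=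
  (Matrix.stdBasis F3 (Fin 2) (Fin 2)).reindex finProdFinEquiv

lemma bas_eq : ∀ i, bas i = B4 i := by
  intro i
  unfold bas
  rw [Module.Basis.reindex_apply, Matrix.stdBasis_eq_single]
  fin_cases i <;> decide +kernel

theorem st4_zero : st (2 * 2) = 0 := by
  refine Module.Basis.ext_alternating bas fun v hv => ?_
  have hb : Function.Bijective v := (Finite.injective_iff_bijective).mp hv
  let τ : Equiv.Perm (Fin (2 * 2)) := Equiv.ofBijective v hb
  have h1 : (fun i => bas (v i)) = (fun i => bas i) ∘ τ := rfl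
  rw [h1, AlternatingMap.map_perm]
  have h2 : st (2 * 2) (fun i => bas i) = 0 := by
    have : (fun i => bas i) = B4 := funext bas_eq
    rw [this, st_apply, key]
  rw [h2]
  simp

theorem AL (v : Fin (2 * 2) → M2) : ∑ σ : Equiv.Perm (Fin (2 * 2)),
            ((Equiv.Perm.sign σ : ℤˣ) : ℤ) • (List.ofFn fun i => v (σ i)).prod = 0 := by
  rw [← st_apply, st4_zero]
  simp

end Pool.Agent.U375.UEA
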