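import Mathlib

set_option autoImplicit false

universe u

namespace Pool.Agent.U375.UEA

/-- Relations of `u(sl₂)` in characteristic 3, inside a ring. -/
structure Rel {A : Type*} [Ring A] (e f h : A) : Prop where
  three : (3 : A) = 0
  he : h * e = e * h - e
  hf : h * f = f * h + f
  ef : e * f = f * e + h
  e3 : e ^ 3 = 0
  f3 : f ^ 3 = 0
  h3 : h ^ 3 = h

variable {A : Type*} [Ring A] {e f h : A}

/-- Casimir element -/
def cas (e f h : A) : A := (h + 1) ^ 2 + f * e

lemma three_smul_zero (H : Rel e f h) (x : A) : (3 : ℤ) • x = 0 := by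
  have : ((3 : ℤ) : A) = 0 := by exact_mod_cast H.three
  rw [← Int.cast_smul_eq_zsmul A 3 x, this, zero_smul]

lemma cas_comm_h (H : Rel e f h) : cas e f h * h = h * cas e f h := by
  unfold cas
  have h1 : h * (f * e) = (f * e) * h := by
    rw [← mul_assoc, H.hf, add_mul, mul_assoc, H.he]; noncomm_ring
  rw [mul_add, h1, add_mul]
  noncomm_ring

lemma cas_comm_e (H : Rel e f h) : cas e f h * e = e * cas e f h := by
  unfold cas
  have h3 := three_smul_zero H
  have h0 : (h + 1) * e = e * h := by rw [add_mul, H.he]; noncomm_ring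
  have h1 : (h + 1) ^ 2 * e = e * h ^ 2 := by
    rw [pow_two, mul_assoc, h0, ← mul_assoc, h0]; noncomm_ring
  have h2 : f * e = e * f - h := by rw [H.ef]; noncomm_ring
  have h4 : f * e * e = e * (f * e) - e * h + e := by
    rw [h2, sub_mul, H.he]; rw [mul_assoc, h2]; noncomm_ring
  rw [add_mul, h1, h4]
  have h5 := h3 (e * h)
  have : e * ((h + 1) ^ 2 + f * e) = e * h ^ 2 + (e * (f * e) - e * h + e) + (3 : ℤ) • (e * h) := by
    noncomm_ring
  rw [this, h5, add_zero]

lemma cas_comm_f (H : Rel e f h) : cas e f h * f = f * cas e f h := by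
  unfold cas
  have h3 := three_smul_zero H
  have h0 : f * (h + 1) = h * f := by rw [mul_add, H.hf]; noncomm_ring
  have h1 : f * (h + 1) ^ 2 = h ^ 2 * f := by
    rw [pow_two, ← mul_assoc, h0, mul_assoc, h0]; noncomm_ring
  have h4 : f * e * f = f * (f * e) + h * f - f := by
    rw [mul_assoc, H.ef, mul_add, H.hf]; noncomm_ring
  rw [mul_add, h1, add_mul, h4]
  have h5 := h3 (h * f)
  have : (h + 1) ^ 2 * f + (f * (f * e) + h * f - f) = h ^ 2 * f + f * (f * e) + (3 : ℤ) • (h * f) := by
    noncomm_ring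
  rw [this, h5, add_zero]


open scoped IsMulCommutative in
lemma exists_comm {A : Type u} [Ring A] (c h : A) (hc : c * h = h * c) :
    ∃ (B : Type u) (_ : CommRing B) (φ : B →+* A) (C H : B), Function.Injective φ ∧
      φ C = c ∧ φ H = h := by
  have hcomm : ∀ x ∈ ({c, h} : Set A), ∀ y ∈ ({c, h} : Set A), x * y = y * x := by
    intro x hx y hy
    rcases hx with rfl | hx <;> rcases hy with rfl | hy
    · rfl
    · rw [Set.mem_singleton_iff.mp hy]; exact hc
    · rw [Set.mem_singleton_iff.mp hx]; exact hc.symm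
    · rw [Set.mem_singleton_iff.mp hx, Set.mem_singleton_iff.mp hy]
  have := Subring.isMulCommutative_closure hcomm
  refine ⟨Subring.closure {c, h}, inferInstance,
    { toFun := fun x => x.1, map_one' := rfl, map_mul' := fun _ _ => rfl, map_zero' := rfl,
      map_add' := fun _ _ => rfl },
    ⟨c, Subring.subset_closure (by simp)⟩, ⟨h, Subring.subset_closure (by simp)⟩,
    Subtype.val_injective, rfl, rfl⟩

/-- idempotents -/
def eps1 (h : A) : A := 1 - (h - 1) ^ 2
def eps2 (h : A) : A := 1 - (h + 1) ^ 2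
def eB (c : A) : A := - c - c ^ 2

lemma map_eps1 {B : Type*} [Ring B] (φ : B →+* A) (x : B) : φ (eps1 x) = eps1 (φ x) := by
  simp [eps1]
lemma map_eps2 {B : Type*} [Ring B] (φ : B →+* A) (x : B) : φ (eps2 x) = eps2 (φ x) := by
  simp [eps2]
lemma map_eB {B : Type*} [Ring B] (φ : B →+* A) (x : B) : φ (eB x) = eB (φ x) := by
  simp [eB]

section comm
variable {B : Type*} [CommRing B] {C H : B}

lemma comm_C (h3 : (3 : B) = 0) (hH : H ^ 3 = H)
    (hp : (C - (H - 1) ^ 2) * (C - H ^ 2) * (C - (H + 1) ^ 2) = 0) : C ^ 3 + C ^ 2 + C = 0 := by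
  linear_combination hp + (H ^ 3 - H) * hH + (C ^ 2 + H ^ 2 * C ^ 2 - H ^ 4 * C) * h3

lemma comm_eB (h3 : (3 : B) = 0) (hC : C ^ 3 + C ^ 2 + C = 0) : eB C * eB C = eB C := by
  unfold eB
  linear_combination (C + 1) * hC + 0 * h3

lemma comm_cinv (h3 : (3 : B) = 0) (hC : C ^ 3 + C ^ 2 + C = 0) : (2 - C) * C * eB C = eB C := by
  unfold eB
  linear_combination (C - 2) * hC + C * h3

lemma comm_eps1 (h3 : (3 : B) = 0) (hH : H ^ 3 = H) : eps1 H * eps1 H = eps1 H := by
  unfold eps1
  linear_combination (H - 4) * hH + (2 * H ^ 2 - 2 * H) * h3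

lemma comm_eps2 (h3 : (3 : B) = 0) (hH : H ^ 3 = H) : eps2 H * eps2 H = eps2 H := by
  unfold eps2
  linear_combination (H + 4) * hH + (2 * H ^ 2 + 2 * H) * h3

lemma comm_eps12 (h3 : (3 : B) = 0) (hH : H ^ 3 = H) : eps1 H * eps2 H = 0 := by
  unfold eps1 eps2
  linear_combination H * hH + (-H^2) * h3

lemma comm_h1 (h3 : (3 : B) = 0) (hH : H ^ 3 = H) : H * eps1 H = eps1 H := by
  unfold eps1
  linear_combination (-1) * hH + (H ^ 2 - H) * h3

lemma comm_h2 (h3 : (3 : B) = 0) (hH : H ^ 3 = H) : (H + 1) * eps2 H = 0 := by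
  unfold eps2
  linear_combination (-1) * hH + (-H ^ 2 - H) * h3
end comm

/-- The matrix units inside `u(sl₂)`. -/
def m11 (e f h : A) : A := eps1 h * eB (cas e f h)
def m22 (e f h : A) : A := eps2 h * eB (cas e f h)
def m21 (e f h : A) : A := f * m11 e f h
def m12 (e f h : A) : A := (2 - cas e f h) * e * m22 e f h

lemma prod_zero (H : Rel e f h) :
    (cas e f h - (h - 1) ^ 2) * (cas e f h - h ^ 2) * (cas e f h - (h + 1) ^ 2) = 0 := by
  set c := cas e f h with hc
  have hfe : f * e = c - (h + 1) ^ 2 := by rw [hc, cas]; noncomm_ring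
  have hfc : f * c = c * f := (cas_comm_f H).symm
  have h0 : f * (h + 1) = h * f := by rw [mul_add, H.hf]; noncomm_ring
  have h1 : f * (h + 1) ^ 2 = h ^ 2 * f := by
    rw [pow_two, ← mul_assoc, h0, mul_assoc, h0]; noncomm_ring
  have h2 : f * h = (h - 1) * f := by rw [sub_mul, H.hf]; noncomm_ring
  have h3 : f * h ^ 2 = (h - 1) ^ 2 * f := by
    rw [pow_two, ← mul_assoc, h2, mul_assoc, h2]; noncomm_ring
  have g1 : f * (c - (h + 1) ^ 2) = (c - h ^ 2) * f := by rw [mul_sub, sub_mul, hfc, h1]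
  have g2 : f * (c - h ^ 2) = (c - (h - 1) ^ 2) * f := by rw [mul_sub, sub_mul, hfc, h3]
  have k : f ^ 3 * e ^ 3 = (c - (h - 1) ^ 2) * (c - h ^ 2) * (c - (h + 1) ^ 2) := by
    have k1 : f * (f * e) = (c - h ^ 2) * f := by rw [hfe, g1]
    calc f ^ 3 * e ^ 3 = f * ((f * (f * e)) * e) * e := by noncomm_ring
      _ = f * (((c - h ^ 2) * f) * e) * e := by rw [k1]
      _ = (f * (c - h ^ 2)) * (f * e) * e := by noncomm_ring
      _ = ((c - (h - 1) ^ 2) * f) * (f * e) * e := by rw [g2]
      _ = (c - (h - 1) ^ 2) * (f * (f * e)) * e := by noncomm_ring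
      _ = (c - (h - 1) ^ 2) * ((c - h ^ 2) * f) * e := by rw [k1]
      _ = (c - (h - 1) ^ 2) * (c - h ^ 2) * (f * e) := by noncomm_ring
      _ = _ := by rw [hfe]
  rw [← k, H.f3, zero_mul]

/-- bundle of all facts. -/
theorem units (H : Rel e f h) :
    m11 e f h * m11 e f h = m11 e f h ∧ m22 e f h * m22 e f h = m22 e f h ∧
    m11 e f h * m22 e f h = 0 ∧ m22 e f h * m11 e f h = 0 ∧
    m21 e f h * m11 e f h = m21 e f h ∧ m22 e f h * m21 e f h = m21 e f h ∧
    m12 e f h * m22 e f h = m12 e f h ∧ m11 e f h * m12 e f h = m12 e f h ∧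
    m12 e f h * m21 e f h = m11 e f h ∧ m21 e f h * m12 e f h = m22 e f h := by
  obtain ⟨B, _, φ, C, K, hφ, hC, hK⟩ := exists_comm (cas e f h) h (cas_comm_h H)
  have b3 : (3 : B) = 0 := by
    apply hφ
    rw [map_zero, ← H.three]
    exact map_ofNat φ 3
  have bK : K ^ 3 = K := by
    apply hφ
    rw [map_pow, hK, H.h3]
  have bp : (C - (K - 1) ^ 2) * (C - K ^ 2) * (C - (K + 1) ^ 2) = 0 := by
    apply hφ
    simp only [map_mul, map_sub, map_pow, map_add, map_one, map_zero, hC, hK]
    exact prod_zero H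
  have bC := comm_C b3 bK bp
  have e11 : m11 e f h = φ (eps1 K * eB C) := by
    rw [map_mul, map_eps1, map_eB, hC, hK]; rfl
  have e22 : m22 e f h = φ (eps2 K * eB C) := by
    rw [map_mul, map_eps2, map_eB, hC, hK]; rfl
  have r1 : m11 e f h * m11 e f h = m11 e f h := by
    rw [e11, ← map_mul]
    congr 1
    calc eps1 K * eB C * (eps1 K * eB C) = (eps1 K * eps1 K) * (eB C * eB C) := by ring
      _ = _ := by rw [comm_eps1 b3 bK, comm_eB b3 bC]
  have r2 : m22 e f h * m22 e f h = m22 e f h := by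
    rw [e22, ← map_mul]
    congr 1
    calc eps2 K * eB C * (eps2 K * eB C) = (eps2 K * eps2 K) * (eB C * eB C) := by ring
      _ = _ := by rw [comm_eps2 b3 bK, comm_eB b3 bC]
  have r3 : m11 e f h * m22 e f h = 0 := by
    rw [e11, e22, ← map_mul, ← map_zero φ]
    congr 1
    calc eps1 K * eB C * (eps2 K * eB C) = (eps1 K * eps2 K) * (eB C * eB C) := by ring
      _ = _ := by rw [comm_eps12 b3 bK, zero_mul]
  have r4 : m22 e f h * m11 e f h = 0 := by
    rw [e11, e22, ← map_mul, ← map_zero φ]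
    congr 1
    calc eps2 K * eB C * (eps1 K * eB C) = (eps1 K * eps2 K) * (eB C * eB C) := by ring
      _ = _ := by rw [comm_eps12 b3 bK, zero_mul]
  have hcf : cas e f h * f = f * cas e f h := cas_comm_f H
  have hce : cas e f h * e = e * cas e f h := cas_comm_e H
  have hBf : f * eB (cas e f h) = eB (cas e f h) * f := by
    unfold eB
    rw [mul_sub, sub_mul, mul_neg, neg_mul, hcf, pow_two, ← mul_assoc, ← hcf, mul_assoc, ← hcf,
      mul_assoc]
  have hBe : e * eB (cas e f h) = eB (cas e f h) * e := by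
    unfold eB
    rw [mul_sub, sub_mul, mul_neg, neg_mul, hce, pow_two, ← mul_assoc, ← hce, mul_assoc, ← hce,
      mul_assoc]
  have hf1 : f * eps1 h = eps2 h * f := by
    have a1 : f * (h - 1) = (h + 1) * f := by
      have := three_smul_zero H f
      have h' : (h + 1) * f = f * (h - 1) + (3 : ℤ) • f := by
        rw [add_mul, H.hf]; noncomm_ring
      rw [h', this, add_zero]
    unfold eps1 eps2
    rw [mul_sub, sub_mul, pow_two, pow_two, ← mul_assoc, a1, mul_assoc, a1, mul_one, one_mul,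
      mul_assoc]
  have he1 : e * eps2 h = eps1 h * e := by
    have a1 : e * (h + 1) = (h - 1) * e := by
      have := three_smul_zero H e
      have h' : e * (h + 1) = (h - 1) * e + (3 : ℤ) • e := by
        rw [sub_mul, H.he]; noncomm_ring
      rw [h', this, add_zero]
    unfold eps1 eps2
    rw [mul_sub, sub_mul, pow_two, pow_two, ← mul_assoc, a1, mul_assoc, a1, mul_one, one_mul,
      mul_assoc]
  have hf2 : f * m11 e f h = m22 e f h * f := by
    unfold m11 m22
    rw [← mul_assoc, hf1, mul_assoc, hBf, mul_assoc]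
  have he2 : e * m22 e f h = m11 e f h * e := by
    unfold m11 m22
    rw [← mul_assoc, he1, mul_assoc, hBe, mul_assoc]
  have hc1 : cas e f h * m11 e f h = m11 e f h * cas e f h := by
    rw [e11, ← hC, ← map_mul, ← map_mul, mul_comm]
  have hc1' : (2 - cas e f h) * m11 e f h = m11 e f h * (2 - cas e f h) := by
    rw [sub_mul, mul_sub, hc1, two_mul, mul_two]
  have e12 : m12 e f h = m11 e f h * (2 - cas e f h) * e := by
    unfold m12
    rw [mul_assoc, he2, ← mul_assoc, hc1']
  have e21 : m21 e f h = m22 e f h * f := hf2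
  have hfe : f * e = cas e f h - (h + 1) ^ 2 := by rw [cas]; noncomm_ring
  have hef : e * f = cas e f h - (h + 1) ^ 2 + h := by rw [H.ef, hfe]
  have hφ2 : φ 2 = 2 := map_ofNat φ 2
  refine ⟨r1, r2, r3, r4, ?_, ?_, ?_, ?_, ?_, ?_⟩
  · unfold m21; rw [mul_assoc, r1]
  · rw [e21, ← mul_assoc, r2]
  · unfold m12; rw [mul_assoc, r2]
  · rw [e12, ← mul_assoc, ← mul_assoc, r1]
  · have : m12 e f h * m21 e f h = (2 - cas e f h) * (cas e f h - (h + 1) ^ 2 + h) * m11 e f h := by
      calc m12 e f h * m21 e f h = (2 - cas e f h) * e * (m22 e f h * m22 e f h) * f := by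
            rw [e21]; unfold m12; noncomm_ring
        _ = (2 - cas e f h) * (e * (m22 e f h * f)) := by rw [r2]; noncomm_ring
        _ = (2 - cas e f h) * (e * (f * m11 e f h)) := by rw [hf2]
        _ = (2 - cas e f h) * (e * f) * m11 e f h := by noncomm_ring
        _ = _ := by rw [hef]
    rw [this, e11, ← hC, ← hK, ← hφ2]
    simp only [← map_mul, ← map_sub, ← map_add, ← map_pow, ← map_one φ]
    congr 1
    have k1 := comm_h1 b3 bK
    have k2 := comm_cinv b3 bC
    calc (2 - C) * (C - (K + 1) ^ 2 + K) * (eps1 K * eB C)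
        = ((2 - C) * C * eB C) * eps1 K - (2 - C) * eB C * (K * (K * eps1 K) + K * eps1 K + eps1 K)
          := by ring
      _ = eB C * eps1 K - (2 - C) * eB C * (eps1 K + eps1 K + eps1 K) := by rw [k2, k1, k1]
      _ = eps1 K * eB C - 3 * ((2 - C) * eB C * eps1 K) := by ring
      _ = eps1 K * eB C := by rw [b3, zero_mul, sub_zero]
  · have : m21 e f h * m12 e f h = (2 - cas e f h) * (cas e f h - (h + 1) ^ 2) * m22 e f h := by
      calc m21 e f h * m12 e f h = f * ((m11 e f h * m11 e f h) * (2 - cas e f h)) * e := by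
            rw [e12]; unfold m21; noncomm_ring
        _ = f * ((2 - cas e f h) * m11 e f h) * e := by rw [r1, ← hc1']
        _ = (f * (2 - cas e f h)) * (m11 e f h * e) := by noncomm_ring
        _ = ((2 - cas e f h) * f) * (e * m22 e f h) := by
            rw [← he2]
            congr 1
            rw [mul_sub, sub_mul, hcf, two_mul, mul_two]
        _ = (2 - cas e f h) * (f * e) * m22 e f h := by noncomm_ring
        _ = _ := by rw [hfe]
    rw [this, e22, ← hC, ← hK, ← hφ2]
    simp only [← map_mul, ← map_sub, ← map_add, ← map_pow, ← map_one φ]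
    congr 1
    have k1 := comm_h2 b3 bK
    have k2 := comm_cinv b3 bC
    calc (2 - C) * (C - (K + 1) ^ 2) * (eps2 K * eB C)
        = ((2 - C) * C * eB C) * eps2 K - (2 - C) * eB C * (K + 1) * ((K + 1) * eps2 K)
          := by ring
      _ = eps2 K * eB C := by rw [k2, k1]; ring

end Pool.Agent.U375.UEA
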